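import Mathlib
import Pool.Agent.Y642.ND.Stm

/-!
# Project ND: the bound of Hadamard

The section `had` is a copy of the section of the same name in
`Pool.Agent.Y185.SR.Ereg`.
-/

set_option autoImplicit false

open Finset Matrix
open scoped ComplexOrder BigOperators

namespace Pool.Agent.Y810.ND

section had

theorem det_zero_of_diag {α : Type*} [Fintype α] [DecidableEq α] (M : Matrix α α ℂ)
    (hM : M.PosSemidef) (i : α) (hi : M i i = 0) : M.det = 0 := by
  rw [← Matrix.exists_mulVec_eq_zero_iff]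
  refine ⟨Pi.single i 1, ?_, ?_⟩
  · intro h
    have := congrFun h i
    simp at this
  · rw [← hM.dotProduct_mulVec_zero_iff]
    simp only [mulVec_single_one]
    have : star (Pi.single i (1 : ℂ) : α → ℂ) = Pi.single i (1 : ℂ) := by
      ext j
      by_cases h : j = i
      · subst h; simp
      · simp [h]
    rw [this, single_one_dotProduct]
    exact hi

theorem det_le_diag (n : ℕ) : ∀ A : Matrix (Fin n) (Fin n) ℂ, A.PosSemidef →
    A.det ≤ ∏ i, A i i := by
  induction n with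
  | zero => intro A _; simp
  | succ n ih =>
    intro A hA
    let e : Fin n ⊕ Fin 1 ≃ Fin (n + 1) := finSumFinEquiv
    have hM : (A.submatrix e e).PosSemidef := hA.submatrix _
    have hdet : A.det = (A.submatrix e e).det := (Matrix.det_submatrix_equiv_self e A).symm
    have hprod : ∏ i, A i i = ∏ i, (A.submatrix e e) i i :=
      (Equiv.prod_comp e (fun i => A i i)).symm
    rw [hdet, hprod]
    generalize A.submatrix e e = M at hM
    have hd0 : ∀ i, 0 ≤ M i i := fun i => hM.diag_nonneg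
    by_cases h0 : M (Sum.inr 0) (Sum.inr 0) = 0
    · rw [det_zero_of_diag M hM _ h0]
      exact Finset.prod_nonneg (fun i _ => hd0 i)
    · have hpos : 0 < M (Sum.inr 0) (Sum.inr 0) := lt_of_le_of_ne (hd0 _) (Ne.symm h0)
      have hM22 : M.toBlocks₂₂ = Matrix.of (fun _ _ => M (Sum.inr 0) (Sum.inr 0)) := by
        ext i j
        fin_cases i
        fin_cases j
        rfl
      have hM22' : M.toBlocks₂₂ = Matrix.diagonal (fun _ => M (Sum.inr 0) (Sum.inr 0)) := by
        ext i j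
        fin_cases i
        fin_cases j
        simp [toBlocks₂₂]
      have hpd : M.toBlocks₂₂.PosDef := by
        rw [hM22']
        exact Matrix.PosDef.diagonal (fun _ => hpos)
      have hinvt : IsUnit M.toBlocks₂₂ := hpd.isUnit
      let _ : Invertible M.toBlocks₂₂ := hinvt.invertible
      have hM21 : M.toBlocks₂₁ = M.toBlocks₁₂ᴴ := by
        ext i j
        exact (hM.isHermitian.apply _ _).symm
      have hMb : M = fromBlocks M.toBlocks₁₁ M.toBlocks₁₂ M.toBlocks₁₂ᴴ M.toBlocks₂₂ := by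
        rw [← hM21, fromBlocks_toBlocks]
      have hS : (M.toBlocks₁₁ - M.toBlocks₁₂ * (M.toBlocks₂₂)⁻¹ * M.toBlocks₁₂ᴴ).PosSemidef := by
        rw [← Matrix.PosDef.fromBlocks₂₂ _ _ hpd, ← hMb]
        exact hM
      have hE : (M.toBlocks₁₂ * (M.toBlocks₂₂)⁻¹ * M.toBlocks₁₂ᴴ).PosSemidef :=
        hpd.inv.posSemidef.mul_mul_conjTranspose_same _
      have hdet2 : M.det = M (Sum.inr 0) (Sum.inr 0) *
          (M.toBlocks₁₁ - M.toBlocks₁₂ * (M.toBlocks₂₂)⁻¹ * M.toBlocks₁₂ᴴ).det := by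
        have h1 := Matrix.det_fromBlocks₂₂ M.toBlocks₁₁ M.toBlocks₁₂ M.toBlocks₁₂ᴴ M.toBlocks₂₂
        rw [← hMb] at h1
        rw [h1, Matrix.invOf_eq_nonsing_inv]
        congr 1
        rw [hM22', det_diagonal]
        simp
      rw [hdet2, Fintype.prod_sum_type, mul_comm]
      simp only [Fin.prod_univ_one]
      apply mul_le_mul_of_nonneg_right _ (hd0 _)
      refine le_trans (ih _ hS) ?_
      apply Finset.prod_le_prod
      · intro i _
        exact hS.diag_nonneg
      · intro i _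
        rw [Matrix.sub_apply]
        exact sub_le_self _ hE.diag_nonneg


theorem hadamard {N : ℕ} (W : Matrix (Fin N) (Fin N) ℂ) :
    ‖W.det‖ ^ 2 ≤ ∏ i, ∑ j, ‖W i j‖ ^ 2 := by
  have hps : (W * Wᴴ).PosSemidef := Matrix.posSemidef_self_mul_conjTranspose W
  have h1 := det_le_diag N (W * Wᴴ) hps
  have h2 : (W * Wᴴ).det = ((‖W.det‖ ^ 2 : ℝ) : ℂ) := by
    rw [Matrix.det_mul, Matrix.det_conjTranspose, RCLike.star_def, Complex.mul_conj,
      Complex.normSq_eq_norm_sq]
  have h3 : ∏ i, (W * Wᴴ) i i = ((∏ i, ∑ j, ‖W i j‖ ^ 2 : ℝ) : ℂ) := by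
    rw [Complex.ofReal_prod]
    refine Finset.prod_congr rfl fun i _ => ?_
    rw [Matrix.mul_apply, Complex.ofReal_sum]
    refine Finset.sum_congr rfl fun j _ => ?_
    rw [Matrix.conjTranspose_apply, RCLike.star_def, Complex.mul_conj,
      Complex.normSq_eq_norm_sq]
  rw [h2, h3] at h1
  exact_mod_cast h1

end had

theorem t : Pool.Agent.Y642.ND.S_ARC := by
  intro D n y l M hl
  refine (hadamard _).trans ?_
  have hrow : ∀ i : Fin D, ∑ k : Fin D,
      ‖(Matrix.of fun i k : Fin D => ∏ j, y i j ^ l k j) i k‖ ^ 2 ≤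
        (D : ℝ) * ∏ j, (max 1 ‖y i j‖) ^ (2 * M j) := by
    intro i
    have hent : ∀ k ∈ (Finset.univ : Finset (Fin D)),
        ‖(Matrix.of fun i k : Fin D => ∏ j, y i j ^ l k j) i k‖ ^ 2 ≤
          ∏ j, (max 1 ‖y i j‖) ^ (2 * M j) := by
      intro k _
      rw [Matrix.of_apply, norm_prod, ← Finset.prod_pow]
      refine Finset.prod_le_prod (fun j _ => by positivity) fun j _ => ?_
      rw [norm_pow, ← pow_mul]
      have h1 : (1 : ℝ) ≤ max 1 ‖y i j‖ := le_max_left _ _
      calc ‖y i j‖ ^ (l k j * 2) ≤ (max 1 ‖y i j‖) ^ (l k j * 2) :=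
            pow_le_pow_left₀ (norm_nonneg _) (le_max_right _ _) _
        _ ≤ (max 1 ‖y i j‖) ^ (2 * M j) :=
            pow_le_pow_right₀ h1 (by have := hl k j; omega)
    have := Finset.sum_le_card_nsmul _ _ _ hent
    simpa [nsmul_eq_mul] using this
  calc ∏ i, ∑ k, ‖(Matrix.of fun i k : Fin D => ∏ j, y i j ^ l k j) i k‖ ^ 2
      ≤ ∏ i : Fin D, ((D : ℝ) * ∏ j, (max 1 ‖y i j‖) ^ (2 * M j)) :=
        Finset.prod_le_prod (fun i _ => Finset.sum_nonneg fun k _ => by positivity)
          fun i _ => hrow i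
    _ = (D : ℝ) ^ D * ∏ i, ∏ j, (max 1 ‖y i j‖) ^ (2 * M j) := by
        rw [Finset.prod_mul_distrib]
        simp

end Pool.Agent.Y810.ND
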